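import Mathlib

set_option autoImplicit false

namespace Pool.Agent.Results.MP_e5975b_an.Disconnected

open Set

/-- Pareto solution set -/
def Sol {n m : ℕ} (F : Fin m → (Fin n → ℝ) → (Fin n → ℝ)) (K : Set (Fin n → ℝ)) :
    Set (Fin n → ℝ) :=
  {x | x ∈ K ∧ ∀ y ∈ K, ¬ ((∀ l, 0 ≤ F l x ⬝ᵥ (x - y)) ∧ ∃ l, F l x ⬝ᵥ (x - y) ≠ 0)}

/-- weak Pareto solution set -/
def SolW {n m : ℕ} (F : Fin m → (Fin n → ℝ) → (Fin n → ℝ)) (K : Set (Fin n → ℝ)) :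
    Set (Fin n → ℝ) :=
  {x | x ∈ K ∧ ∀ y ∈ K, ¬ ∀ l, 0 < F l x ⬝ᵥ (x - y)}

/-- proper Pareto solution set -/
def SolPr {n m : ℕ} (F : Fin m → (Fin n → ℝ) → (Fin n → ℝ)) (K : Set (Fin n → ℝ)) :
    Set (Fin n → ℝ) :=
  {x | ∃ ξ : Fin m → ℝ, (∀ l, 0 < ξ l) ∧ ∑ l, ξ l = 1 ∧ x ∈ K ∧
    ∀ y ∈ K, 0 ≤ (∑ l, ξ l • F l x) ⬝ᵥ (y - x)}

def K0 : Set (Fin 3 → ℝ) :=
  {x | 0 ≤ 2 * x 0 + x 1 ∧ 0 ≤ x 0 + 2 * x 1 ∧ 0 ≤ x 2 ∧
    (x 0 + 1) ^ 2 ≤ x 2 * (2 * x 0 + x 1) ∧ (x 1 + 1) ^ 2 ≤ x 2 * (x 0 + 2 * x 1)}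

def F0 : Fin 2 → (Fin 3 → ℝ) → (Fin 3 → ℝ) := fun l _ => if l = 0 then ![1, 0, 0] else ![0, 1, 0]

theorem soc (s t u s' t' u' a b : ℝ) (ht : 0 ≤ t) (hu : 0 ≤ u) (h : s ^ 2 ≤ t * u)
    (ht' : 0 ≤ t') (hu' : 0 ≤ u') (h' : s' ^ 2 ≤ t' * u') (ha : 0 ≤ a) (hb : 0 ≤ b) :
    (a * s + b * s') ^ 2 ≤ (a * t + b * t') * (a * u + b * u') := by
  have k : 2 * s * s' ≤ t * u' + t' * u := by
    apply le_trans (le_abs_self _) (abs_le_of_sq_le_sq _ (by positivity))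
    have h1 : s ^ 2 * s' ^ 2 ≤ (t * u) * (t' * u') :=
      mul_le_mul h h' (sq_nonneg _) (mul_nonneg ht hu)
    nlinarith [sq_nonneg (t * u' - t' * u)]
  nlinarith [mul_nonneg ha hb, mul_le_mul_of_nonneg_left h (sq_nonneg a),
    mul_le_mul_of_nonneg_left h' (sq_nonneg b), mul_le_mul_of_nonneg_left k (mul_nonneg ha hb)]

theorem convK : Convex ℝ K0 := by
  rintro x ⟨h1, h2, h3, h4, h5⟩ y ⟨g1, g2, g3, g4, g5⟩ a b ha hb hab
  have e1 := soc _ _ _ _ _ _ a b h3 h1 h4 g3 g1 g4 ha hb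
  have e2 := soc _ _ _ _ _ _ a b h3 h2 h5 g3 g2 g5 ha hb
  obtain rfl : b = 1 - a := by linarith
  simp only [K0, mem_setOf_eq, Pi.add_apply, Pi.smul_apply, smul_eq_mul]
  refine ⟨by nlinarith [mul_nonneg ha h1, mul_nonneg hb g1],
    by nlinarith [mul_nonneg ha h2, mul_nonneg hb g2], by positivity, ?_, ?_⟩
  · convert e1 using 1 <;> ring
  · convert e2 using 1 <;> ring

theorem closedK : IsClosed K0 := by
  unfold K0
  simp only [setOf_and]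
  refine (isClosed_le (by fun_prop) (by fun_prop)).inter ((isClosed_le (by fun_prop)
    (by fun_prop)).inter ((isClosed_le (by fun_prop) (by fun_prop)).inter
    ((isClosed_le (by fun_prop) (by fun_prop)).inter (isClosed_le (by fun_prop) (by fun_prop)))))

theorem d0 (x z : Fin 3 → ℝ) : F0 0 x ⬝ᵥ z = z 0 := by
  simp [F0, dotProduct, Fin.sum_univ_three]

theorem d1 (x z : Fin 3 → ℝ) : F0 1 x ⬝ᵥ z = z 1 := by
  simp [F0, dotProduct, Fin.sum_univ_three]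

theorem weak_sub (x : Fin 3 → ℝ) (hx : x ∈ SolW F0 K0) : x 0 = -1 ∨ x 0 = 2 := by
  obtain ⟨⟨h1, h2, h3, h4, h5⟩, h⟩ := hx
  rcases h1.eq_or_lt with e | p1
  · left
    rw [← e] at h4
    nlinarith [sq_nonneg (x 0 + 1)]
  rcases h2.eq_or_lt with e | p2
  · right
    rw [← e] at h5
    have : x 1 = -1 := by nlinarith [sq_nonneg (x 1 + 1)]
    linarith
  exfalso
  set δ := min (2 * x 0 + x 1) (x 0 + 2 * x 1) / 6 with hδ
  have hδ0 : 0 < δ := by positivity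
  have l1 : 6 * δ ≤ 2 * x 0 + x 1 := by rw [hδ]; linarith [min_le_left (2 * x 0 + x 1) (x 0 + 2 * x 1)]
  have l2 : 6 * δ ≤ x 0 + 2 * x 1 := by rw [hδ]; linarith [min_le_right (2 * x 0 + x 1) (x 0 + 2 * x 1)]
  set T := ((x 0 - δ + 1) ^ 2 + (x 1 - δ + 1) ^ 2) / δ with hT
  have hT0 : 0 ≤ T := by positivity
  have hTδ : T * δ = (x 0 - δ + 1) ^ 2 + (x 1 - δ + 1) ^ 2 := by rw [hT]; field_simp
  apply h ![x 0 - δ, x 1 - δ, T]
  · simp only [K0, mem_setOf_eq, Matrix.cons_val_zero, Matrix.cons_val_one, Matrix.cons_val]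
    refine ⟨by linarith, by linarith, hT0, ?_, ?_⟩
    · nlinarith [sq_nonneg (x 1 - δ + 1), mul_le_mul_of_nonneg_left l1 hT0, mul_nonneg hT0 hδ0.le]
    · nlinarith [sq_nonneg (x 0 - δ + 1), mul_le_mul_of_nonneg_left l2 hT0, mul_nonneg hT0 hδ0.le]
  · rw [Fin.forall_fin_two, d0, d1]
    simp [hδ0]

theorem pr_sub_sol (x : Fin 3 → ℝ) (hx : x ∈ SolPr F0 K0) : x ∈ Sol F0 K0 := by
  obtain ⟨ξ, hξ, -, hK, h⟩ := hx
  refine ⟨hK, fun y hy ⟨h1, l, h2⟩ => ?_⟩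
  have := h y hy
  rw [Fin.sum_univ_two, add_dotProduct, smul_dotProduct, smul_dotProduct, d0, d1] at this
  have a0 := h1 0
  have a1 := h1 1
  rw [d0] at a0
  rw [d1] at a1
  simp only [Pi.sub_apply, smul_eq_mul] at this a0 a1
  have b0 := hξ 0
  have b1 := hξ 1
  have c0 : x 0 - y 0 = 0 := by nlinarith [mul_nonneg b0.le a0, mul_nonneg b1.le a1]
  have c1 : x 1 - y 1 = 0 := by nlinarith [mul_nonneg b0.le a0, mul_nonneg b1.le a1]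
  fin_cases l
  · exact h2 (by simp [d0, c0])
  · exact h2 (by simp [d1, c1])

theorem sol_sub_weak (x : Fin 3 → ℝ) (hx : x ∈ Sol F0 K0) : x ∈ SolW F0 K0 :=
  ⟨hx.1, fun y hy h => hx.2 y hy ⟨fun l => (h l).le, 0, (h 0).ne'⟩⟩

theorem P_mem : (![-1, 2, 3] : Fin 3 → ℝ) ∈ SolPr F0 K0 := by
  refine ⟨![2 / 3, 1 / 3], by intro l; fin_cases l <;> simp, by simp [Fin.sum_univ_two]; norm_num,
    by simp [K0]; norm_num, fun y hy => ?_⟩
  rw [Fin.sum_univ_two, add_dotProduct, smul_dotProduct, smul_dotProduct, d0, d1]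
  have := hy.1
  simp
  linarith

theorem Q_mem : (![2, -1, 3] : Fin 3 → ℝ) ∈ SolPr F0 K0 := by
  refine ⟨![1 / 3, 2 / 3], by intro l; fin_cases l <;> simp, by simp [Fin.sum_univ_two]; norm_num,
    by simp [K0]; norm_num, fun y hy => ?_⟩
  rw [Fin.sum_univ_two, add_dotProduct, smul_dotProduct, smul_dotProduct, d0, d1]
  have := hy.2.1
  simp
  linarith

theorem notconn (S : Set (Fin 3 → ℝ)) (h1 : SolPr F0 K0 ⊆ S) (h2 : S ⊆ SolW F0 K0) :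
    S.Nonempty ∧ ¬ IsConnected S := by
  refine ⟨⟨_, h1 P_mem⟩, fun hc => ?_⟩
  have := (hc.isPreconnected.image (fun x => x 0) (by fun_prop)).Icc_subset
    ⟨_, h1 P_mem, rfl⟩ ⟨_, h1 Q_mem, rfl⟩
  obtain ⟨x, hx, hx0⟩ := this (show (0 : ℝ) ∈ _ from by simp)
  rcases weak_sub x (h2 hx) with h | h <;> simp only [h] at hx0 <;> norm_num at hx0

/-- A symmetric monotone vector variational inequality whose weak Pareto, Pareto and proper Pareto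
solution sets are all nonempty and disconnected. -/
theorem result :
    ∃ (n m : ℕ) (K : Set (Fin n → ℝ)) (F : Fin m → (Fin n → ℝ) → (Fin n → ℝ)),
      1 ≤ n ∧ 1 ≤ m ∧ K.Nonempty ∧ IsClosed K ∧ Convex ℝ K ∧
      (∀ l, Differentiable ℝ (F l)) ∧
      (∀ l, ∀ x ∈ K, ∀ y ∈ K, 0 ≤ (F l y - F l x) ⬝ᵥ (y - x)) ∧
      (∀ l, ∀ x ∈ K, ∀ i j, fderiv ℝ (F l) x (Pi.single j 1) i =
        fderiv ℝ (F l) x (Pi.single i 1) j) ∧
      ((SolW F K).Nonempty ∧ ¬ IsConnected (SolW F K)) ∧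
      ((Sol F K).Nonempty ∧ ¬ IsConnected (Sol F K)) ∧
      ((SolPr F K).Nonempty ∧ ¬ IsConnected (SolPr F K)) := by
  have hc : ∀ l, F0 l = fun _ => F0 l 0 := fun l => rfl
  refine ⟨3, 2, K0, F0, by norm_num, by norm_num, ⟨_, (pr_sub_sol _ P_mem).1⟩, closedK, convK,
    fun l => by rw [hc]; exact differentiable_const _, fun l x _ y _ => by simp [F0],
    fun l x _ i j => by rw [hc]; simp, ?_, ?_, ?_⟩
  · exact notconn _ (fun x hx => sol_sub_weak x (pr_sub_sol x hx)) subset_rfl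
  · exact notconn _ pr_sub_sol sol_sub_weak
  · exact notconn _ subset_rfl fun x hx => sol_sub_weak x (pr_sub_sol x hx)

end Pool.Agent.Results.MP_e5975b_an.Disconnected
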